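import Pool.Agent.Q67.GW.Final

/-!
There is a minimal PI system with an open, proximal, non-injective factor map onto an equicontinuous
system, for which all the points `(x, x)` are minimal points of `T × T²`: the answer to Q1 is yes.

For every irrational `α` there is such a homeomorphism `T` of the torus which is a skew product
(with circle homeomorphisms as fibre maps) over the rotation by `α`, and all points of `X × X` are
minimal points of `T × T²`.

The definitions (`Pool.Agent.Q67.PI.Tower`, `Pool.Agent.Q67.GW.Final`):

* `Sys`: a system, a homeomorphism of a nonempty compact metric space; `torus T`: the homeomorphism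
  `T` of the product of the additive circle `ℝ/ℤ` and the unit circle; `rotation α`: the rotation
  `y ↦ y + α` of `ℝ/ℤ`;
* `MinimalPoint S z`: the orbit closure of `z` is a minimal subsystem;
* `FactorMap A B π`: continuous, surjective, equivariant;
* `Proximal A B π`, `Equicont A B π`: proximal and equicontinuous extensions; `Equicontinuous A`:
  equicontinuous system;
* `IsTower`, `Sys.IsPI`: minimal, and the image under a proximal factor map of the top of a tower of
  minimal systems which starts with a point, with proximal or equicontinuous successor steps and
  inverse limits at limit ordinals.
-/

open Set Pool.Agent.Q67.PI Pool.Agent.Q67.GW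

set_option autoImplicit false

namespace Pool.Agent.Results.MP_20b9c8_an.OpenProximalExtension

/-- For every irrational `α` there is a homeomorphism `T` of `X = ℝ/ℤ × S¹` such that `(X, T)` is
a minimal PI system, the first projection is a factor map onto the rotation by `α` (an equicontinuous
system), open, proximal and not injective, and every point of `X × X`, in particular every `(x, x)`,
is a minimal point of `T × T²`. -/
theorem result {α : ℝ} (hα : Irrational α) :
    ∃ T : (UnitAddCircle × Circle) ≃ₜ (UnitAddCircle × Circle),
      Sys.IsPI.{0, 0} (torus T) ∧
      FactorMap (torus T) (rotation (α : UnitAddCircle)) Prod.fst ∧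
      Equicontinuous (rotation (α : UnitAddCircle)) ∧
      IsOpenMap (Prod.fst : UnitAddCircle × Circle → UnitAddCircle) ∧
      Proximal (torus T) (rotation (α : UnitAddCircle)) Prod.fst ∧
      ¬ Function.Injective (Prod.fst : UnitAddCircle × Circle → UnitAddCircle) ∧
      ∀ z : (UnitAddCircle × Circle) × (UnitAddCircle × Circle),
        MinimalPoint (T.prodCongr (T ^ 2)) z :=
  Pool.Agent.Q67.GW.main hα

end Pool.Agent.Results.MP_20b9c8_an.OpenProximalExtension
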